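import Mathlib
set_option autoImplicit false

namespace Pool.Agent.Results.MP_811154_nt.Wilf
open Finset

/-- the proportionally modular semigroup `S(a,b,c)`; modular means `c = 1` -/
def PM (a b c : ℕ) : Set ℕ := {x | a * x % b ≤ c * x}

/-- the minimal generators of `S`: nonzero elements that are not a sum of two nonzero elements -/
def MinGen (S : Set ℕ) : Set ℕ :=
  {s | s ∈ S ∧ s ≠ 0 ∧ ∀ u ∈ S, ∀ v ∈ S, u + v = s → u = 0 ∨ v = 0}

def PF (S : Set ℕ) (f : ℕ) : Prop := f ∉ S ∧ ∀ s ∈ S, s ≠ 0 → f + s ∈ S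

theorem core (g1 g2 : ℕ) (k1 k2 : ℤ) (h1 : 0 < g1) (h2 : 0 < g2) (S : Set ℕ)
    (hS : ∀ x : ℕ, x ∈ S ↔ ∃ y : ℤ, k1 * x ≤ g1 * y ∧ g2 * y ≤ k2 * x)
    (hd : g2 * k1 < k2 * g1) (h0 : k2 * g1 < g2 * (k1 + 1)) :
    ∃ φ : ℕ → ℕ, (∀ f, PF S f → φ f ∈ MinGen S ∧ φ f ≠ g2) ∧ Set.InjOn φ {f | PF S f} := by
  have p1 : (0 : ℤ) < g1 := by exact_mod_cast h1
  have p2 : (0 : ℤ) < g2 := by exact_mod_cast h2
  have uq : ∀ (x : ℕ) (y y' : ℤ), k1 * x ≤ g1 * y → g1 * y < k1 * x + g1 → g2 * y ≤ k2 * x →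
      k2 * x < g2 * y + g2 → k1 * x ≤ g1 * y' → g2 * y' ≤ k2 * x → y = y' := by
    intro x y y' a1 a2 a3 a4 a5 a6
    have b1 : y - 1 < y' := lt_of_mul_lt_mul_left (by linarith) p1.le
    have b2 : y' < y + 1 := lt_of_mul_lt_mul_left (by linarith) p2.le
    omega
  have key : ∀ f : ℕ, ∃ (x : ℕ) (y z : ℤ), PF S f → (g1 * z < k1 * f ∧ k1 * f ≤ g1 * z + g1 ∧
      k2 * f < g2 * z + g2) ∧ (x ≠ 0 ∧ k1 * x ≤ g1 * y ∧ g1 * y - k1 * x < k1 * f - g1 * z ∧
      g2 * z + g2 - k2 * f ≤ k2 * x - g2 * y ∧ k2 * x < g2 * y + g2) ∧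
      (∀ (x' : ℕ) (y' : ℤ), x' ≠ 0 → k1 * x' ≤ g1 * y' → g1 * y' - k1 * x' < k1 * f - g1 * z →
        g2 * y' ≤ k2 * x' → k2 * x - g2 * y ≤ k2 * x' - g2 * y') ∧ x ∈ MinGen S := by
    intro f
    by_cases hf : PF S f
    swap
    · exact ⟨0, 0, 0, fun h => absurd h hf⟩
    obtain ⟨z, z1, z2⟩ : ∃ z : ℤ, g1 * z < k1 * f ∧ k1 * f ≤ g1 * z + g1 :=
      ⟨(k1 * f - 1) / g1, by linarith [Int.mul_ediv_self_le (x := k1 * f - 1) p1.ne'],
        by linarith [Int.lt_mul_ediv_self_add (x := k1 * f - 1) p1]⟩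
    have z3 : k2 * f < g2 * z + g2 := not_le.1 fun h => hf.1 ((hS f).2 ⟨z + 1, by linarith, by linarith⟩)
    obtain ⟨μ, ⟨x, y, w1, w2, w3, w4, rfl⟩, hm⟩ := Int.exists_least_of_bdd
      (P := fun μ => ∃ (x : ℕ) (y : ℤ), x ≠ 0 ∧ k1 * x ≤ g1 * y ∧ g1 * y - k1 * x < k1 * f - g1 * z ∧
        g2 * y ≤ k2 * x ∧ μ = g1 * (k2 * x - g2 * y) + (g1 * y - k1 * x))
      ⟨0, by
        rintro _ ⟨x, y, -, w2, -, w4, rfl⟩
        nlinarith⟩ ⟨_, g1, k1, h1.ne', by linarith, by linarith, by linarith, rfl⟩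
    have m1 : ∀ (x' : ℕ) (y' : ℤ), x' ≠ 0 → k1 * x' ≤ g1 * y' → g1 * y' - k1 * x' < k1 * f - g1 * z →
        g2 * y' ≤ k2 * x' → k2 * x - g2 * y ≤ k2 * x' - g2 * y' := fun x' y' a1 a2 a3 a4 => by
      have := hm _ ⟨x', y', a1, a2, a3, a4, rfl⟩
      have : k2 * x - g2 * y < k2 * x' - g2 * y' + 1 := lt_of_mul_lt_mul_left (by linarith) p1.le
      omega
    have m2 := m1 g1 k1 h1.ne' (by linarith) (by linarith) (by linarith)
    have hx : x ∈ S := (hS x).2 ⟨y, w2, w4⟩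
    refine ⟨x, y, z, fun _ => ⟨⟨z1, z2, z3⟩, ⟨w1, w2, w3, ?_, by linarith⟩, m1, hx, w1,
      fun u hu v hv huv => ?_⟩⟩
    · obtain ⟨y', a1, a2⟩ := (hS _).1 (hf.2 x hx w1)
      push_cast at a1 a2
      have b1 : z + y < y' := lt_of_mul_lt_mul_left (by linarith) p1.le
      have := mul_le_mul_of_nonneg_left (show z + y + 1 ≤ y' by omega) p2.le
      linarith
    · by_contra hc
      rw [not_or] at hc
      obtain ⟨yu, a1, a2⟩ := (hS _).1 hu
      obtain ⟨yv, a3, a4⟩ := (hS _).1 hv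
      have e : (x : ℤ) = u + v := by exact_mod_cast huv.symm
      have e2 := uq x y (yu + yv) w2 (by linarith) w4 (by linarith) (by rw [e]; linarith)
        (by rw [e]; linarith)
      rw [e, e2] at hm w3
      have := hm _ ⟨u, yu, hc.1, a1, by linarith, a2, rfl⟩
      have c1 := mul_nonneg p1.le (sub_nonneg.2 a4)
      have c2 : g1 * yv = k1 * v := by linarith
      have c3 : g1 * (k2 * v - g2 * yv) = 0 := by linarith
      have c4 : (0 : ℤ) < v := by exact_mod_cast Nat.pos_of_ne_zero hc.2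
      have c5 := mul_pos (sub_pos.2 hd) c4
      have c6 : (g2 : ℤ) * (g1 * yv) = g2 * (k1 * v) := by rw [c2]
      linarith
  choose X Y Z H using key
  have inj : ∀ f f', PF S f → PF S f' → f < f' → X f ≠ X f' := by
    intro f f' hf hf' hlt he
    obtain ⟨⟨a1, a2, a3⟩, ⟨a4, a5, a6, a7, a8⟩, a9, -⟩ := H f hf
    obtain ⟨⟨b1, b2, b3⟩, ⟨b4, b5, b6, b7, b8⟩, b9, -⟩ := H f' hf'
    rw [← he] at b4 b5 b6 b7 b8 b9
    have e := uq _ _ (Y f') a5 (by linarith) (by linarith) a8 b5 (by linarith)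
    rw [← e] at b5 b6 b7 b8 b9
    obtain ⟨d, rfl⟩ := Nat.exists_eq_add_of_le hlt.le
    have d0 : d ≠ 0 := by omega
    have d1 : (0 : ℤ) < d := by exact_mod_cast Nat.pos_of_ne_zero d0
    have d2 := mul_pos (sub_pos.2 hd) d1
    push_cast at *
    by_cases c1 : k1 * d ≤ g1 * (Z (f + d) - Z f)
    · by_cases c2 : g2 * (Z (f + d) - Z f) ≤ k2 * d
      · exact hf'.1 (hf.2 d ((hS d).2 ⟨_, c1, c2⟩) d0)
      · have := a9 (X f + d) (Y f + (Z (f + d) - Z f)) (by omega) (by push_cast; linarith)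
          (by push_cast; linarith) (by push_cast; linarith)
        push_cast at this
        linarith
    · have c2 : g2 * (Z (f + d) - Z f) < k2 * d := by
        refine lt_of_mul_lt_mul_left ?_ p1.le
        have := mul_le_mul_of_nonneg_left (not_le.1 c1).le p2.le
        linarith
      have c3 : (d : ℤ) < X f := by
        refine lt_of_mul_lt_mul_left ?_ (sub_pos.2 hd).le
        have t1 := mul_nonneg p2.le
          (show 0 ≤ g1 * (Y f - (Z (f + d) - Z f)) - k1 * (X f - d) by linarith)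
        have t2 := mul_pos p1 (show 0 < k2 * (X f - d) - g2 * (Y f - (Z (f + d) - Z f)) by linarith)
        linarith
      obtain ⟨x', hx'⟩ := Nat.exists_eq_add_of_le (show d ≤ X f by omega)
      have := b9 x' (Y f - (Z (f + d) - Z f)) (by omega)
      rw [show (x' : ℤ) = X f - d by omega] at this
      have := this (by linarith) (by linarith) (by linarith)
      linarith
  refine ⟨X, fun f hf => ⟨(H f hf).2.2.2, fun he => ?_⟩, fun f hf f' hf' he => ?_⟩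
  · obtain ⟨⟨a1, a2, a3⟩, ⟨a4, a5, a6, a7, a8⟩, -⟩ := H f hf
    have e := uq _ _ k2 a5 (by linarith) (by linarith) a8 (by rw [he]; linarith) (by rw [he]; linarith)
    rw [he, e] at a7
    linarith
  · rcases lt_trichotomy f f' with h | h | h
    · exact absurd he (inj f f' hf hf' h)
    · exact h
    · exact absurd he.symm (inj f' f hf' hf h)

theorem shrink (a b c : ℕ) (hb : 0 < b) (hf : (MinGen (PM a b c)).Finite) :
    ∃ (g1 g2 : ℕ) (k1 k2 : ℤ), (MinGen (PM a b c)).Nonempty → 0 < g1 ∧ g2 ∈ MinGen (PM a b c) ∧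
      (∀ x : ℕ, x ∈ PM a b c ↔ ∃ y : ℤ, k1 * x ≤ g1 * y ∧ g2 * y ≤ k2 * x) ∧
      g2 * k1 ≤ k2 * g1 ∧ k2 * g1 < g2 * (k1 + 1) := by
  by_cases hn : (MinGen (PM a b c)).Nonempty
  swap
  · exact ⟨0, 0, 0, 0, fun h => absurd h hn⟩
  have pb : (0 : ℤ) < b := by exact_mod_cast hb
  have hS : ∀ x : ℕ, x ∈ PM a b c ↔ ∃ y : ℤ, a * x - c * x ≤ b * y ∧ b * y ≤ a * x := fun x => by
    have e := Nat.div_add_mod (a * x) b
    have l := Nat.mod_lt (a * x) hb
    refine ⟨fun h => ⟨(a * x / b : ℕ), ?_, ?_⟩, fun ⟨y, y1, y2⟩ => ?_⟩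
    · have h : a * x % b ≤ c * x := h
      zify at e h ⊢
      linarith
    · exact_mod_cast (by omega : b * (a * x / b) ≤ a * x)
    · show a * x % b ≤ c * x
      zify at e l ⊢
      have : y < (a * x : ℤ) / b + 1 := lt_of_mul_lt_mul_left (by linarith) pb.le
      have := mul_le_mul_of_nonneg_left (show y ≤ (a * x : ℤ) / b by omega) pb.le
      linarith
  have pos : ∀ g ∈ MinGen (PM a b c), (0 : ℤ) < g := fun g hg => by
    exact_mod_cast Nat.pos_of_ne_zero hg.2.1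
  have cr : ∀ (g g' : ℕ) (k k' : ℤ), (0 : ℤ) < g → (0 : ℤ) < g' → (k : ℚ) / g ≤ (k' : ℚ) / g' →
      k * g' ≤ k' * g := fun g g' k k' h h' hh => by
    rw [div_le_div_iff₀ (by exact_mod_cast h) (by exact_mod_cast h')] at hh
    exact_mod_cast hh
  obtain ⟨g1, hg1, m1⟩ := Set.exists_min_image _ (fun g : ℕ => (((a * g : ℤ) / b : ℤ) : ℚ) / g) hf hn
  have p1 := pos g1 hg1
  set k1 : ℤ := (a * g1 : ℤ) / b with hk1
  obtain ⟨g2, hg2, m2⟩ := Set.exists_max_image _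
    (fun g : ℕ => ((-((-(k1 * g)) / g1) : ℤ) : ℚ) / g) hf hn
  have p2 := pos g2 hg2
  set k2 : ℤ := -((-(k1 * g2)) / g1) with hk2
  have up : ∀ g ∈ MinGen (PM a b c), b * -((-(k1 * g)) / g1) ≤ a * g := fun g hg => by
    have t1 := cr _ _ _ _ p1 (pos g hg) (m1 g hg)
    have t2 := Int.lt_mul_ediv_self_add (x := -(k1 * g)) p1
    have t3 : -((-(k1 * g)) / g1) < (a * g : ℤ) / b + 1 := lt_of_mul_lt_mul_left (by linarith) p1.le
    have := mul_le_mul_of_nonneg_left (show -((-(k1 * g)) / g1) ≤ (a * g : ℤ) / b by omega) pb.le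
    linarith [Int.mul_ediv_self_le (x := a * g) pb.ne']
  have lift : ∀ g ∈ MinGen (PM a b c), ∃ y : ℤ, k1 * g ≤ g1 * y ∧ g2 * y ≤ k2 * g := fun g hg =>
    ⟨-((-(k1 * g)) / g1), by linarith [Int.mul_ediv_self_le (x := -(k1 * g)) p1.ne'],
      by linarith [cr _ _ _ _ (pos g hg) p2 (m2 g hg)]⟩
  have u2 := up g2 hg2
  rw [← hk2] at u2
  have u1 := Int.lt_mul_ediv_self_add (x := a * g1) pb
  rw [← hk1] at u1
  refine ⟨g1, g2, k1, k2, fun _ => ⟨Nat.pos_of_ne_zero hg1.2.1, hg2, fun x => ⟨fun hx => ?_,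
    fun ⟨y, y1, y2⟩ => (hS x).2 ⟨y, ?_, ?_⟩⟩, ?_, ?_⟩⟩
  · induction x using Nat.strong_induction_on with
    | _ x ih =>
      by_cases h0 : x = 0
      · exact ⟨0, by simp [h0], by simp [h0]⟩
      by_cases h1 : x ∈ MinGen (PM a b c)
      · exact lift x h1
      simp only [MinGen, Set.mem_ofPred_eq, not_and, not_forall, not_or] at h1
      obtain ⟨u, hu, v, hv, rfl, h2, h3⟩ := h1 hx h0
      obtain ⟨yu, a1, a2⟩ := ih u (by omega) hu
      obtain ⟨yv, a3, a4⟩ := ih v (by omega) hv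
      exact ⟨yu + yv, by push_cast; linarith, by push_cast; linarith⟩
  · obtain ⟨y', t1, t2⟩ := (hS g1).1 hg1.1
    have t3 : y' < k1 + 1 := lt_of_mul_lt_mul_left (by linarith) pb.le
    have t4 := mul_le_mul_of_nonneg_left (show y' ≤ k1 by omega) pb.le
    have t5 := mul_le_mul_of_nonneg_right (t1.trans t4) (Int.natCast_nonneg x)
    have t6 := mul_le_mul_of_nonneg_left y1 pb.le
    exact le_of_mul_le_mul_left (by linarith) p1
  · have t5 := mul_le_mul_of_nonneg_right u2 (Int.natCast_nonneg x)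
    have t6 := mul_le_mul_of_nonneg_left y2 pb.le
    exact le_of_mul_le_mul_left (by linarith) p2
  · obtain ⟨y, y1, y2⟩ := lift g1 hg1
    have := mul_le_mul_of_nonneg_left (le_of_mul_le_mul_left (by linarith) p1 : k1 ≤ y) p2.le
    linarith
  · refine lt_of_mul_lt_mul_left ?_ pb.le
    have t5 := mul_le_mul_of_nonneg_right u2 p1.le
    have t6 := mul_lt_mul_of_pos_left u1 p2
    linarith

theorem result (a b c : ℕ) (hb : 0 < b) (hc : 0 < c) (F : ℤ)
    (hF : IsGreatest {z : ℤ | ¬ ∃ s ∈ PM a b c, (s : ℤ) = z} F) :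
    ((MinGen (PM a b c)).ncard : ℤ) * ((PM a b c)ᶜ.ncard : ℤ) ≤
      ((MinGen (PM a b c)).ncard - 1) * (F + 1) := by
  classical
  have big : ∀ x, b ≤ x → x ∈ PM a b c := fun x hx =>
    ((Nat.mod_lt _ hb).le.trans hx).trans (Nat.le_mul_of_pos_left x hc)
  have hf : (MinGen (PM a b c)).Finite := (Set.finite_lt_nat (2 * b)).subset fun s hs =>
    not_le.1 fun h : 2 * b ≤ s => by
      have := hs.2.2 b (big b le_rfl) (s - b) (big _ (by omega)) (by omega)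
      omega
  have hn : (MinGen (PM a b c)).Nonempty := by
    have ex : ∃ s, s ∈ PM a b c ∧ s ≠ 0 := ⟨b, big b le_rfl, hb.ne'⟩
    refine ⟨Nat.find ex, (Nat.find_spec ex).1, (Nat.find_spec ex).2, fun u hu v hv h => ?_⟩
    by_contra h'
    exact Nat.find_min ex (show u < Nat.find ex by omega) ⟨hu, by omega⟩
  obtain ⟨g1, g2, k1, k2, H⟩ := shrink a b c hb hf
  obtain ⟨p1, hg2, hS, d1, d2⟩ := H hn
  generalize PM a b c = S at *
  have add : ∀ u ∈ S, ∀ v ∈ S, u + v ∈ S := fun u hu v hv => by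
    obtain ⟨yu, a1, a2⟩ := (hS u).1 hu
    obtain ⟨yv, a3, a4⟩ := (hS v).1 hv
    exact (hS _).2 ⟨yu + yv, by push_cast; linarith, by push_cast; linarith⟩
  have z0 : 0 ∈ S := (hS 0).2 ⟨0, by simp, by simp⟩
  have F1 : -1 ≤ F := hF.2 fun ⟨s, _, h⟩ => by omega
  obtain ⟨n, hn⟩ : ∃ n : ℕ, (n : ℤ) = F + 1 := ⟨(F + 1).toNat, by omega⟩
  have lt : ∀ x, x ∉ S → x < n := fun x hx => by
    have : (x : ℤ) ≤ F := hF.2 fun ⟨s, hs, h⟩ => hx (by rwa [← Int.natCast_inj.1 h])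
    omega
  have e1 : Sᶜ = ((range n).filter fun x => x ∉ S) := by
    ext x
    simpa using lt x
  have e2 := card_filter_add_card_filter_not (s := range n) fun x => x ∈ S
  rw [e1, Set.ncard_coe_finset, ← hn, Set.ncard_eq_toFinset_card _ hf]
  rw [card_range] at e2
  have e3 := card_erase_add_one (hf.mem_toFinset.2 hg2)
  suffices h : ((range n).filter fun x => x ∉ S).card ≤
      (hf.toFinset.erase g2 ×ˢ (range n).filter fun x => x ∈ S).card by
    rw [card_product] at h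
    zify at h e2 e3
    rw [← e2, ← e3]
    linarith
  rcases d1.eq_or_lt with d1 | d1
  · have p1' : (0 : ℤ) < g1 := by exact_mod_cast p1
    have p2 : (0 : ℤ) < g2 := by exact_mod_cast Nat.pos_of_ne_zero hg2.2.1
    have ray : ∀ x ∈ S, ∃ y : ℤ, k1 * x = g1 * y ∧ g2 * y = k2 * x := fun x hx => by
      obtain ⟨y, y1, y2⟩ := (hS x).1 hx
      have t1 := mul_le_mul_of_nonneg_left y1 p2.le
      have t2 := mul_le_mul_of_nonneg_left y2 p1'.le
      have t3 : (g2 : ℤ) * k1 * x = k2 * g1 * x := by rw [d1]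
      exact ⟨y, mul_left_cancel₀ p2.ne' (by linarith), mul_left_cancel₀ p1'.ne' (by linarith)⟩
    have all : ∀ x, x ∈ S := fun x => by
      obtain ⟨y, y1, y2⟩ := ray b (big b le_rfl)
      obtain ⟨y', y3, y4⟩ := ray (b + x) (big _ (by omega))
      push_cast at y3 y4
      exact (hS x).2 ⟨y' - y, by linarith, by linarith⟩
    rw [filter_false_of_mem fun x _ hx => hx (all x), card_empty]
    exact Nat.zero_le _
  obtain ⟨φ, f1, f2⟩ := core g1 g2 k1 k2 p1 (Nat.pos_of_ne_zero hg2.2.1) S hS d1 d2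
  have ex : ∀ x, ∃ s, x ∉ S → s ∈ S ∧ PF S (x + s) := fun x => by
    by_cases hx : x ∈ S
    · exact ⟨0, fun h => absurd hx h⟩
    obtain ⟨s, hs, m⟩ := Set.exists_max_image {s | s ∈ S ∧ x + s ∉ S} id
      ((Set.finite_lt_nat n).subset fun s hs => (Nat.le_add_left s x).trans_lt (lt _ hs.2))
      ⟨0, z0, hx⟩
    refine ⟨s, fun _ => ⟨hs.1, hs.2, fun t ht h0 => by_contra fun h => ?_⟩⟩
    have := m (s + t) ⟨add s hs.1 t ht, by rwa [← add_assoc]⟩
    simp only [id] at this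
    omega
  choose σ hσ using ex
  refine card_le_card_of_injOn (fun x => (φ (x + σ x), σ x)) (fun x hx => ?_) fun x hx y hy h => ?_
  · obtain ⟨h1, h2⟩ := hσ x (mem_filter.1 hx).2
    exact mem_coe.2 (mem_product.2 ⟨mem_erase.2 ⟨(f1 _ h2).2, hf.mem_toFinset.2 (f1 _ h2).1⟩,
      mem_filter.2 ⟨mem_range.2 ((Nat.le_add_left _ x).trans_lt (lt _ h2.1)), h1⟩⟩)
  · obtain ⟨h1, h2⟩ := Prod.mk.inj h
    have := f2 (hσ x (mem_filter.1 hx).2).2 (hσ y (mem_filter.1 hy).2).2 h1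
    omega

end Pool.Agent.Results.MP_811154_nt.Wilf
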